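import Pool.Agent.Lib.MP_776035_co.Tiling.Data.E1
import Pool.Agent.Lib.MP_776035_co.Tiling.Data.E2
import Pool.Agent.Lib.MP_776035_co.Tiling.Data.E3
import Pool.Agent.Lib.MP_776035_co.Tiling.Data.E4
import Pool.Agent.Lib.MP_776035_co.Tiling.Data.E5
import Pool.Agent.Lib.MP_776035_co.Tiling.Data.E6
import Pool.Agent.Lib.MP_776035_co.Tiling.Data.E7
import Pool.Agent.Lib.MP_776035_co.Tiling.Data.E8

/-!
# A long interval of 6-realizable numbers

For every `α` with `0.302 ≤ α ≤ 0.6818` the plane has a colouring with six colours in which five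
colour classes do not realise the distance `1` and the sixth one does not realise `α`.
-/

set_option autoImplicit false

open Pool.Agent.Lib.MP_776035_co.Tiling

namespace Pool.Agent.Results.MP_776035_co.IntervalColourings

theorem result (α : ℝ) (h1 : 302 / 1000 ≤ α) (h2 : α ≤ 6818 / 10000) :
    ∃ c : EuclideanSpace ℝ (Fin 2) → Fin 6, ∀ p q, c p = c q →
      (c p ≠ 5 → dist p q ≠ 1) ∧ (c p = 5 → dist p q ≠ α) := by
  have key : ∀ D : Data, D.OK = true → (D.lo : ℝ) ≤ α * D.M → α * D.M ≤ D.hi →
      ∃ c : EuclideanSpace ℝ (Fin 2) → Fin 6, ∀ p q, c p = c q →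
        (c p ≠ 5 → dist p q ≠ 1) ∧ (c p = 5 → dist p q ≠ α) := by
    intro D hD hlo hhi
    obtain ⟨c, hc1, hc2⟩ := colouring hD α hlo hhi
    refine ⟨c, fun p q hpq => ⟨fun h => hc1 p q hpq h, fun h => hc2 p q h (hpq ▸ h)⟩⟩
  rcases le_or_gt α (302370 / 1000000) with h | h
  · exact key E1 E1_ok (by norm_num [E1]; linarith) (by norm_num [E1]; linarith)
  rcases le_or_gt α (304370 / 1000000) with h' | h'
  · exact key E2 E2_ok (by norm_num [E2]; linarith) (by norm_num [E2]; linarith)
  clear h
  rcases le_or_gt α (314620 / 1000000) with h | h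
  · exact key E3 E3_ok (by norm_num [E3]; linarith) (by norm_num [E3]; linarith)
  clear h'
  rcases le_or_gt α (361870 / 1000000) with h' | h'
  · exact key E4 E4_ok (by norm_num [E4]; linarith) (by norm_num [E4]; linarith)
  clear h
  rcases le_or_gt α (439400 / 1000000) with h | h
  · exact key E5 E5_ok (by norm_num [E5]; linarith) (by norm_num [E5]; linarith)
  clear h'
  rcases le_or_gt α (520000 / 1000000) with h' | h'
  · exact key E6 E6_ok (by norm_num [E6]; linarith) (by norm_num [E6]; linarith)
  clear h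
  rcases le_or_gt α (660000 / 1000000) with h | h
  · exact key E7 E7_ok (by norm_num [E7]; linarith) (by norm_num [E7]; linarith)
  · exact key E8 E8_ok (by norm_num [E8]; linarith) (by norm_num [E8]; linarith)

end Pool.Agent.Results.MP_776035_co.IntervalColourings
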