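import Pool.Agent.Lib.MP_776035_co.Pattern

/-!
# The structure of the 6-realizable set of the plane

`Realizable n T` is the set of all `α > 0` such that the plane has a colouring with `n` colours in
which the colour classes in `T` do not realise the distance `α` and the other colour classes do not
realise the distance `1`.  So `X_6` is `Realizable 6 {5}`.

Every such set is the intersection of `(0, ∞)` with countably many open sets whose boundary points
in `(0, ∞)` are algebraic numbers.  In particular a positive limit of realizable numbers which is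
not realizable is algebraic.
-/

set_option autoImplicit false

open Pool.Agent.Lib.MP_776035_co

namespace Pool.Agent.Results.MP_776035_co.OpenSets

theorem result (n : ℕ) (T : Set (Fin n)) :
    (∃ 𝒰 : Set (Set ℝ), 𝒰.Countable ∧ (∀ U ∈ 𝒰, IsOpen U) ∧
      (∀ U ∈ 𝒰, ∀ a ∈ frontier U, 0 < a → IsAlgebraic ℚ a) ∧
      Realizable n T = {a | 0 < a ∧ ∀ U ∈ 𝒰, a ∈ U}) ∧
    ∀ a ∈ closure (Realizable n T), 0 < a → a ∉ Realizable n T → IsAlgebraic ℚ a := by
  obtain ⟨𝒰, h1, h2, h3, h4⟩ := structure_thm T
  refine ⟨⟨𝒰, h1, h2, h3, h4⟩, ?_⟩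
  intro a ha ha0 hna
  rw [h4] at hna
  have h5 : ∃ U ∈ 𝒰, a ∉ U := by
    by_contra hcon
    push Not at hcon
    exact hna ⟨ha0, hcon⟩
  obtain ⟨U, hU, haU⟩ := h5
  apply h3 U hU a _ ha0
  rw [(h2 U hU).frontier_eq]
  refine ⟨?_, haU⟩
  apply closure_mono _ ha
  rw [h4]
  intro b hb
  exact hb.2 U hU

end Pool.Agent.Results.MP_776035_co.OpenSets
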